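import Mathlib
import Pool.Agent.H.MP_72b8ed_an.A

set_option autoImplicit false
open scoped InnerProductSpace ComplexConjugate ComplexOrder
open Matrix Filter Topology Pool.Agent.H.MP_e3a8c8_an Pool.Agent.H.MP_72b8ed_an

namespace Pool.Agent.H.MP_232e98_an

theorem riesz {X E : Type*} [NormedAddCommGroup E] [InnerProductSpace ℂ E] [CompleteSpace E]
    (β : X → E) (lam : X → ℂ) (C : ℝ) (hC : 0 ≤ C)
    (h : ∀ (S : Finset X) (c : X → ℂ), ‖∑ j ∈ S, c j * lam j‖ ≤ C * ‖∑ j ∈ S, c j • β j‖) :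
    ∃ G : E, ‖G‖ ≤ C ∧ ∀ x, ⟪G, β x⟫_ℂ = lam x := by
  let L := Finsupp.linearCombination ℂ β
  let l := Finsupp.linearCombination ℂ lam
  have hb : ∀ c, ‖l c‖ ≤ C * ‖L c‖ := fun c => h c.support c
  have hk : LinearMap.ker L ≤ LinearMap.ker l := fun c hc => by
    have := hb c
    rw [LinearMap.mem_ker.1 hc, norm_zero, mul_zero] at this
    exact norm_le_zero_iff.1 this
  let f : LinearMap.range L →ₗ[ℂ] ℂ :=
    ((LinearMap.ker L).liftQ l hk).comp L.quotKerEquivRange.symm.toLinearMap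
  have hf : ∀ c, f ⟨L c, LinearMap.mem_range_self L c⟩ = l c := fun c => by
    simp [f, LinearMap.quotKerEquivRange_symm_apply_image]
  have hf2 : ∀ x, ‖f x‖ ≤ C * ‖x‖ := by
    rintro ⟨_, c, rfl⟩
    rw [hf]
    exact hb c
  obtain ⟨g, g1, g2⟩ := exists_extension_norm_eq _ (f.mkContinuous C hf2)
  refine ⟨(InnerProductSpace.toDual ℂ E).symm g, ?_, fun x => ?_⟩
  · rw [LinearIsometryEquiv.norm_map, g2]
    exact f.mkContinuous_norm_le hC hf2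
  · have := g1 ⟨L (Finsupp.single x 1), LinearMap.mem_range_self L _⟩
    rw [LinearMap.mkContinuous_apply, hf] at this
    simpa [L, l] using this

theorem dft {E : Type*} [NormedAddCommGroup E] [InnerProductSpace ℂ E] (N : ℕ) (hN : N ≠ 0)
    (v : ℕ → E) : ∃ ω : ℂ, ‖ω‖ = 1 ∧
      ‖∑ n ∈ Finset.range N, ω ^ n • v n‖ ^ 2 ≤ ∑ n ∈ Finset.range N, ‖v n‖ ^ 2 := by
  have hp := Complex.isPrimitiveRoot_exp N hN
  set ζ := Complex.exp (2 * Real.pi * Complex.I / N)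
  have hn : ‖ζ‖ = 1 := hp.norm'_eq_one hN
  have hc : ∀ n : ℕ, conj (ζ ^ n) * ζ ^ n = 1 := fun n => by
    rw [Complex.conj_mul', norm_pow, hn]; simp
  have key : ∑ j ∈ Finset.range N, (((‖∑ n ∈ Finset.range N, (ζ ^ j) ^ n • v n‖ ^ 2 : ℝ)) : ℂ) =
      ∑ j ∈ Finset.range N, ((∑ n ∈ Finset.range N, ‖v n‖ ^ 2 : ℝ) : ℂ) := by
    have e : ∀ x : E, ((‖x‖ ^ 2 : ℝ) : ℂ) = ⟪x, x⟫_ℂ := fun x => by
      rw [inner_self_eq_norm_sq_to_K]; simp
    simp only [e, Complex.ofReal_sum, sum_inner, inner_sum, inner_smul_left, inner_smul_right,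
      Finset.mul_sum]
    rw [Finset.sum_comm, Finset.sum_comm (s := Finset.range N) (t := Finset.range N)
      (f := fun _ n => ⟪v n, v n⟫_ℂ)]
    refine Finset.sum_congr rfl fun m hm => ?_
    rw [Finset.sum_comm, Finset.sum_eq_single_of_mem m hm]
    · refine Finset.sum_congr rfl fun j _ => ?_
      rw [← pow_mul, ← mul_assoc, mul_comm (ζ ^ _), hc, one_mul]
    · intro n hn' hnm
      have : ∀ j : ℕ, (ζ ^ j) ^ m * (conj ((ζ ^ j) ^ n) * ⟪v n, v m⟫_ℂ) =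
          (ζ ^ m * conj (ζ ^ n)) ^ j * ⟪v n, v m⟫_ℂ := fun j => by
        rw [← pow_mul, ← pow_mul, mul_comm j, mul_comm j, pow_mul, pow_mul, map_pow, mul_pow]
        ring
      simp only [this, ← Finset.sum_mul]
      have h1 : ζ ^ m * conj (ζ ^ n) ≠ 1 := fun e => hnm (hp.pow_inj (Finset.mem_range.1 hn')
        (Finset.mem_range.1 hm) (by linear_combination ζ ^ m * hc n - ζ ^ n * e))
      have h2 : (ζ ^ m * conj (ζ ^ n)) ^ N = 1 := by
        rw [mul_pow, ← map_pow, ← pow_mul, ← pow_mul, mul_comm m, mul_comm n, pow_mul, pow_mul,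
          hp.pow_eq_one]
        simp
      rw [geom_sum_eq h1, h2]
      simp
  have key' : ∑ j ∈ Finset.range N, ‖∑ n ∈ Finset.range N, (ζ ^ j) ^ n • v n‖ ^ 2 ≤
      ∑ j ∈ Finset.range N, ∑ n ∈ Finset.range N, ‖v n‖ ^ 2 := by
    exact_mod_cast key.le
  obtain ⟨j, -, hj⟩ := Finset.exists_le_of_sum_le (Finset.nonempty_range_iff.2 hN) key'
  exact ⟨ζ ^ j, by rw [norm_pow, hn, one_pow], hj⟩

theorem mob {X E : Type*} [NormedAddCommGroup E] [InnerProductSpace ℂ E] (u : X → E) (A B : E)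
    (hAB : ⟪A, B⟫_ℂ = 0) (h : ‖A‖ ^ 2 + ‖B‖ ^ 2 ≤ 1) :
    (of fun z w => (1 - ⟪u z, B⟫_ℂ) * (1 - ⟪B, u w⟫_ℂ) - ⟪u z, A⟫_ℂ * ⟪A, u w⟫_ℂ -
      (1 - ⟪B, B⟫_ℂ) * (1 - ⟪u z, u w⟫_ℂ)).PosSemidef := by
  let M : Matrix X X ℂ := of fun z w => ⟪u z - B, u w - B⟫_ℂ
  let v : X → ℂ := fun w => ⟪A, u w - B⟫_ℂ
  have h1 : (((1 - ‖B‖ ^ 2 : ℝ) : ℂ) • M + -dyad v).PosSemidef := by
    have hM : ∀ z w, ⟪u z - B, u w - B⟫_ℂ = M z w := fun _ _ => rfl
    have hv : ∀ x y, ⟪v x, v y⟫_ℂ = dyad v x y := fun x y => by simp [dyad, mul_comm]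
    refine psd_of ((psd_real (gram_psd hM) _ (by nlinarith [sq_nonneg ‖A‖])).1.add
      (dyad_psd v).1.neg) fun c => ⟨_, le_rfl, ?_⟩
    rw [form_add, form_neg, form_smul, form_gram hM, form_gram hv, ← Complex.ofReal_mul,
      ← Complex.ofReal_neg, ← Complex.ofReal_add, Complex.ofReal_re]
    have e : ∑ j ∈ c.support, c j • v j = ⟪A, ∑ j ∈ c.support, c j • (u j - B)⟫_ℂ := by
      simp only [inner_sum, inner_smul_right, v, smul_eq_mul]
    rw [e]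
    generalize ∑ j ∈ c.support, c j • (u j - B) = x
    have := pow_le_pow_left₀ (norm_nonneg _) (norm_inner_le_norm (𝕜 := ℂ) A x) 2
    rw [mul_pow] at this
    nlinarith [sq_nonneg ‖x‖]
  refine (congrArg PosSemidef ?_).mp (h1.add (dyad_psd fun w => ⟪B, B⟫_ℂ - ⟪B, u w⟫_ℂ))
  ext z w
  have e : ((1 - ‖B‖ ^ 2 : ℝ) : ℂ) = 1 - ⟪B, B⟫_ℂ := by
    rw [inner_self_eq_norm_sq_to_K]; simp
  simp only [Matrix.add_apply, Matrix.smul_apply, Matrix.neg_apply, M, v, dyad, of_apply, e,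
    smul_eq_mul, map_sub, inner_conj_symm, inner_sub_left, inner_sub_right, hAB, map_zero]
  ring

end Pool.Agent.H.MP_232e98_an
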