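import Mathlib
import Pool.Agent.H.MP_232e98_an.A

set_option autoImplicit false
open scoped InnerProductSpace ComplexConjugate ComplexOrder
open Matrix Filter Topology Metric Pool.Agent.H.MP_e3a8c8_an Pool.Agent.H.MP_72b8ed_an

namespace Pool.Agent.H.MP_232e98_an

theorem hs1 {K : Type*} [RCLike K] {t : K} (h : ‖t‖ < 1) :
    HasSum (fun n : ℕ => ((n : K) + 1) * t ^ n) (1 / (1 - t) ^ 2) := by
  simpa using hasSum_choose_mul_geometric_of_norm_lt_one 1 h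

theorem rep {r : ℝ} (hr0 : 0 < r) (hr : r ^ 2 = 1 / 2) {U : Type*} [NormedAddCommGroup U]
    [InnerProductSpace ℂ U] [CompleteSpace U] (u : ball (0 : ℂ) r → U)
    (h : (of fun z w : ball (0 : ℂ) r =>
      ⟪u z, u w⟫_ℂ / (1 - z * conj (w : ℂ)) ^ 2 - 2 * (z * conj (w : ℂ))).PosSemidef) :
    ∃ G : ℕ → U, (∀ s : Finset ℕ, ∑ n ∈ s, ‖G n‖ ^ 2 ≤ 1 / 2) ∧ ∀ w : ball (0 : ℂ) r,
      HasSum (fun n : ℕ => (√(n + 1) : ℝ) * conj (w : ℂ) ^ n * ⟪G n, u w⟫_ℂ) (conj (w : ℂ)) := by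
  have mb : ∀ x : ball (0 : ℂ) r, ‖(x : ℂ)‖ < 1 := fun x =>
    (mem_ball_zero_iff.1 x.2).trans (by nlinarith)
  have sq : ∀ n : ℕ, √((n : ℝ) + 1) ^ 2 = n + 1 := fun n => Real.sq_sqrt (by positivity)
  let β : ball (0 : ℂ) r → lp (fun _ : ℕ => U) 2 := fun w =>
    ⟨fun n => (((√(n + 1) : ℝ) : ℂ) * conj (w : ℂ) ^ n) • u w, memℓp_gen (by
      have := (hs1 (K := ℝ) (t := ‖(w : ℂ)‖ ^ 2) (by
        rw [norm_pow, norm_norm]; exact pow_lt_one₀ (norm_nonneg _) (mb w) two_ne_zero)).summable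
      refine (this.mul_right (‖u w‖ ^ 2)).congr fun n => ?_
      simp only [ENNReal.toReal_ofNat, Real.rpow_ofNat, norm_smul, norm_mul, norm_pow,
        Complex.norm_conj, Complex.norm_real, mul_pow, Real.norm_eq_abs, sq_abs, sq, ← pow_mul,
        mul_comm 2 n])⟩
  have hβ : ∀ z w, ⟪β z, β w⟫_ℂ = (of fun z w : ball (0 : ℂ) r =>
      ⟪u z, u w⟫_ℂ / (1 - z * conj (w : ℂ)) ^ 2) z w := by
    intro z w
    have ht : ‖(z : ℂ) * conj (w : ℂ)‖ < 1 := by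
      rw [norm_mul, Complex.norm_conj]
      exact mul_lt_one_of_nonneg_of_lt_one_left (norm_nonneg _) (mb z) (mb w).le
    refine (lp.hasSum_inner (β z) (β w)).unique ?_
    rw [of_apply, div_eq_mul_one_div]
    refine ((hs1 ht).mul_left _).congr_fun fun n => ?_
    have : (((√(n + 1) : ℝ) : ℂ)) ^ 2 = n + 1 := by exact_mod_cast sq n
    simp only [β, inner_smul_left, inner_smul_right, map_mul, map_pow, Complex.conj_conj,
      Complex.conj_ofReal, mul_pow]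
    rw [← this]
    ring
  obtain ⟨G, hG1, hG2⟩ := riesz β (fun w => conj (w : ℂ)) r hr0.le fun S c => by
    have h1 := form_re_nonneg h S c
    have hv : ∀ x y : ball (0 : ℂ) r, ⟪conj (x : ℂ), conj (y : ℂ)⟫_ℂ =
        (of fun x y : ball (0 : ℂ) r => (x : ℂ) * conj (y : ℂ)) x y := fun x y => by
      simp [mul_comm]
    have e : (of fun z w : ball (0 : ℂ) r =>
        ⟪u z, u w⟫_ℂ / (1 - z * conj (w : ℂ)) ^ 2 - 2 * (z * conj (w : ℂ))) =
        (of fun z w : ball (0 : ℂ) r => ⟪u z, u w⟫_ℂ / (1 - z * conj (w : ℂ)) ^ 2) +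
          ((-2 : ℝ) : ℂ) • of fun x y : ball (0 : ℂ) r => (x : ℂ) * conj (y : ℂ) := by
      ext x y
      simp [sub_eq_add_neg]
    rw [e, form_add, form_smul, form_gram hβ, form_gram hv, ← Complex.ofReal_mul,
      ← Complex.ofReal_add, Complex.ofReal_re] at h1
    refine (sq_le_sq₀ (norm_nonneg _) (by positivity)).1 ?_
    rw [mul_pow, hr]
    simp only [smul_eq_mul] at h1
    linarith
  refine ⟨G, fun s => ?_, fun w => ?_⟩
  · have := lp.sum_rpow_le_norm_rpow (p := 2) (by norm_num) G s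
    simp only [ENNReal.toReal_ofNat, Real.rpow_ofNat] at this
    exact this.trans (hr ▸ pow_le_pow_left₀ (norm_nonneg _) hG1 2)
  · have := lp.hasSum_inner (𝕜 := ℂ) G (β w)
    rw [hG2 w] at this
    refine this.congr_fun fun n => ?_
    simp only [β, inner_smul_right]

theorem core {r : ℝ} (hr0 : 0 < r) (hr : r ^ 2 = 1 / 2) {U : Type*} [NormedAddCommGroup U]
    [InnerProductSpace ℂ U] [CompleteSpace U] (u : ball (0 : ℂ) r → U) (hu : ∀ w, ‖u w‖ < 1)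
    (h : (of fun z w : ball (0 : ℂ) r =>
      ⟪u z, u w⟫_ℂ / (1 - z * conj (w : ℂ)) ^ 2 - 2 * (z * conj (w : ℂ))).PosSemidef) :
    ∃ A B : U, ⟪A, B⟫_ℂ = 0 ∧ ‖A‖ ^ 2 + ‖B‖ ^ 2 ≤ 1 ∧
      ∀ w : ball (0 : ℂ) r, ⟪A, u w⟫_ℂ = (√2 : ℝ) * conj (w : ℂ) * (1 - ⟪B, u w⟫_ℂ) := by
  obtain ⟨G, hG, hs⟩ := rep hr0 hr u h
  have hr1 : r < 1 := by nlinarith
  have sq : ∀ n : ℕ, √((n : ℝ) + 1) ^ 2 = n + 1 := fun n => Real.sq_sqrt (by positivity)
  have hG1 : ∀ n, ‖G n‖ ≤ 1 := fun n => by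
    have := hG {n}
    rw [Finset.sum_singleton] at this
    nlinarith [norm_nonneg (G n)]
  set S := ‖G 0‖ ^ 2 + ‖G 1‖ ^ 2 with hS
  have key : ∀ ρ, 0 ≤ ρ → ρ < r → ρ ≤ √(3 / 8 + S / 4) := by
    intro ρ h0 h1
    have hsum := (hs1 (K := ℝ) (t := ρ) (by rw [Real.norm_of_nonneg h0]; linarith)).summable
    have ht := (tendsto_sum_nat_add fun n : ℕ => ((n : ℝ) + 1) * ρ ^ n).const_add
      √(3 / 8 + S / 4)
    rw [add_zero] at ht
    refine ge_of_tendsto ht (eventually_atTop.2 ⟨2, fun M hM => ?_⟩)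
    obtain ⟨ω, hω, h2⟩ := dft M (by omega) fun n => (((√(n + 1) * ρ ^ n : ℝ)) : ℂ) • G n
    have nw : ‖(ρ : ℂ) * ω‖ = ρ := by simp [hω, h0]
    let w : ball (0 : ℂ) r := ⟨ρ * ω, mem_ball_zero_iff.2 (by rwa [nw])⟩
    have h3 := (hs w).summable.sum_add_tsum_nat_add M
    rw [(hs w).tsum_eq] at h3
    have h4 : ∑ n ∈ Finset.range M, (√(n + 1) : ℝ) * conj (w : ℂ) ^ n * ⟪G n, u w⟫_ℂ =
        ⟪∑ n ∈ Finset.range M, ω ^ n • (((√(n + 1) * ρ ^ n : ℝ)) : ℂ) • G n, u w⟫_ℂ := by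
      rw [sum_inner]
      refine Finset.sum_congr rfl fun n _ => ?_
      simp only [w, inner_smul_left, map_mul, map_pow, Complex.conj_ofReal, mul_pow]
      push_cast
      ring
    have h5 : ∑ n ∈ Finset.range M, ‖(((√(n + 1) * ρ ^ n : ℝ)) : ℂ) • G n‖ ^ 2 ≤
        3 / 8 + S / 4 := by
      obtain ⟨m, rfl⟩ : ∃ m, M = m + 2 := ⟨M - 2, by omega⟩
      have e : ∀ n : ℕ, ‖(((√(n + 1) * ρ ^ n : ℝ)) : ℂ) • G n‖ ^ 2 ≤
          (n + 1) * (1 / 2) ^ n * ‖G n‖ ^ 2 := fun n => by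
        rw [norm_smul, Complex.norm_real, mul_pow, Real.norm_eq_abs, sq_abs, mul_pow, sq,
          ← pow_mul, mul_comm n, pow_mul]
        gcongr
        nlinarith
      refine (Finset.sum_le_sum fun n _ => e n).trans ?_
      have a1 := hG (Finset.range (m + 2))
      rw [Finset.sum_range_succ', Finset.sum_range_succ'] at a1 ⊢
      have a2 : ∑ n ∈ Finset.range m, (((n + 1 + 1 : ℕ) : ℝ) + 1) * (1 / 2) ^ (n + 1 + 1) *
          ‖G (n + 1 + 1)‖ ^ 2 ≤ ∑ n ∈ Finset.range m, 3 / 4 * ‖G (n + 1 + 1)‖ ^ 2 :=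
        Finset.sum_le_sum fun n _ => by
          gcongr
          have b1 : (n : ℝ) + 1 ≤ 2 ^ n := by exact_mod_cast Nat.lt_two_pow_self
          have b2 : (0 : ℝ) < 2 ^ n := by positivity
          rw [one_div, inv_pow, ← div_eq_mul_inv, div_le_iff₀ (by positivity), pow_succ, pow_succ]
          push_cast
          linarith [Nat.cast_nonneg (α := ℝ) n]
      rw [← Finset.mul_sum] at a2
      norm_num at a1 a2 ⊢
      linarith
    have h6 : ‖∑ n ∈ Finset.range M, (√(n + 1) : ℝ) * conj (w : ℂ) ^ n * ⟪G n, u w⟫_ℂ‖ ≤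
        √(3 / 8 + S / 4) := by
      rw [h4]
      refine (norm_inner_le_norm _ _).trans
        ((mul_le_of_le_one_right (norm_nonneg _) (hu w).le).trans ?_)
      exact Real.le_sqrt_of_sq_le (h2.trans h5)
    have h7 : ‖∑' n, (√((n + M : ℕ) + 1) : ℝ) * conj (w : ℂ) ^ (n + M) * ⟪G (n + M), u w⟫_ℂ‖ ≤
        ∑' n, (((n + M : ℕ) : ℝ) + 1) * ρ ^ (n + M) := by
      refine tsum_of_norm_bounded ((summable_nat_add_iff M).2 hsum).hasSum fun n => ?_
      generalize n + M = k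
      have b1 : √((k : ℝ) + 1) ≤ k + 1 := by
        rw [Real.sqrt_le_left (by positivity)]
        nlinarith [Nat.cast_nonneg (α := ℝ) k]
      have b2 : ‖⟪G k, u w⟫_ℂ‖ ≤ 1 := (norm_inner_le_norm _ _).trans
        (mul_le_one₀ (hG1 k) (norm_nonneg _) (hu w).le)
      rw [norm_mul, norm_mul, norm_pow, Complex.norm_conj, Complex.norm_real,
        Real.norm_of_nonneg (Real.sqrt_nonneg _), show ‖(w : ℂ)‖ = ρ from nw]
      exact (mul_le_of_le_one_right (by positivity) b2).trans (by gcongr)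
    have h8 : ρ = ‖conj (w : ℂ)‖ := by rw [Complex.norm_conj]; exact nw.symm
    rw [h8, ← h3]
    refine (norm_add_le _ _).trans (add_le_add h6 (h7.trans (le_of_eq ?_)))
    rw [h3, ← h8]
  have hK : r ≤ √(3 / 8 + S / 4) := le_of_forall_lt_imp_le_of_dense fun ρ hρ => by
    rcases le_total 0 ρ with h0 | h0
    · exact key ρ h0 hρ
    · exact h0.trans (Real.sqrt_nonneg _)
  have hS1 : 1 / 2 ≤ S := by
    have := (Real.le_sqrt hr0.le (by positivity)).1 hK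
    linarith
  have hS2 : S ≤ 1 / 2 := by simpa using hG {0, 1}
  have hz : ∀ n, n ∉ ({0, 1} : Finset ℕ) → G n = 0 := fun n hn => by
    have := hG (insert n {0, 1})
    rw [Finset.sum_insert hn, Finset.sum_pair zero_ne_one] at this
    exact norm_eq_zero.1 (pow_eq_zero_iff two_ne_zero |>.1
      (le_antisymm (by linarith) (sq_nonneg _)))
  have hw : ∀ w : ball (0 : ℂ) r,
      conj (w : ℂ) = ⟪G 0, u w⟫_ℂ + (√2 : ℝ) * conj (w : ℂ) * ⟪G 1, u w⟫_ℂ := fun w => by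
    have := (hs w).tsum_eq
    rw [tsum_eq_sum (s := {0, 1}) fun n hn => by simp [hz n hn],
      Finset.sum_pair zero_ne_one] at this
    refine this.symm.trans ?_
    norm_num
  have hc : ∀ w ∈ closedBall (0 : ℂ) r, ‖w‖ ≤ ‖G 0 + (((√2 : ℝ) : ℂ) * w) • G 1‖ := by
    intro w hw'
    rw [← closure_ball _ hr0.ne'] at hw'
    refine le_on_closure (f := fun w : ℂ => ‖w‖)
      (g := fun w : ℂ => ‖G 0 + (((√2 : ℝ) : ℂ) * w) • G 1‖) (fun w hw' => ?_)
      (by fun_prop) (by fun_prop) hw'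
    have := hw ⟨w, hw'⟩
    rw [← Complex.norm_conj, this]
    refine le_trans (le_of_eq ?_) ((norm_inner_le_norm (𝕜 := ℂ) _ (u ⟨w, hw'⟩)).trans
      (mul_le_of_le_one_right (norm_nonneg _) (hu _).le))
    simp [inner_add_left, inner_smul_left]
  have horth : ⟪G 0, G 1⟫_ℂ = 0 := by
    by_contra h0
    set c := ⟪G 0, G 1⟫_ℂ with hcd
    have hn : 0 < ‖c‖ := norm_pos_iff.2 h0
    have nw : ‖-((r / ‖c‖ : ℝ) : ℂ) * conj c‖ = r := by
      rw [norm_mul, norm_neg, Complex.norm_real, Complex.norm_conj,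
        Real.norm_of_nonneg (by positivity), div_mul_cancel₀ _ hn.ne']
    have h1 := pow_le_pow_left₀ (norm_nonneg _) (hc _ (mem_closedBall_zero_iff.2 nw.le)) 2
    rw [nw, norm_add_sq (𝕜 := ℂ), norm_smul, norm_mul, nw, inner_smul_right, ← hcd, mul_assoc,
      mul_assoc, Complex.conj_mul', mul_pow, mul_pow, hr, Complex.norm_real,
      Real.norm_of_nonneg (Real.sqrt_nonneg _), Real.sq_sqrt zero_le_two] at h1
    have h2 : RCLike.re (((√2 : ℝ) : ℂ) * (-((r / ‖c‖ : ℝ) : ℂ) * (‖c‖ : ℂ) ^ 2)) =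
        -(√2 * (r / ‖c‖ * ‖c‖ ^ 2)) := by
      rw [← Complex.ofReal_neg, ← Complex.ofReal_pow, ← Complex.ofReal_mul, ← Complex.ofReal_mul]
      simp only [RCLike.re_to_complex, Complex.ofReal_re]
      ring
    rw [h2] at h1
    have : 0 < √2 * (r / ‖c‖ * ‖c‖ ^ 2) := by positivity
    linarith
  refine ⟨((√2 : ℝ) : ℂ) • G 0, ((√2 : ℝ) : ℂ) • G 1, ?_, ?_, fun w => ?_⟩
  · rw [inner_smul_left, inner_smul_right, horth]; simp
  · simp only [norm_smul, mul_pow, Complex.norm_real, Real.norm_eq_abs, sq_abs,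
      Real.sq_sqrt zero_le_two]
    linarith
  · rw [inner_smul_left, inner_smul_left, Complex.conj_ofReal]
    linear_combination (-((√2 : ℝ) : ℂ)) * hw w

end Pool.Agent.H.MP_232e98_an
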