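import Mathlib
import Pool.Agent.H.MP_232e98_an.B

set_option autoImplicit false
open scoped InnerProductSpace ComplexConjugate ComplexOrder
open Matrix Filter Topology Metric Pool.Agent.H.MP_e3a8c8_an Pool.Agent.H.MP_72b8ed_an

namespace Pool.Agent.H.MP_232e98_an

theorem ne1 {t : ℂ} (ht : ‖t‖ < 1) : 1 - t ≠ 0 := by
  intro e
  rw [← sub_eq_zero.1 e] at ht
  simp at ht

theorem hat {X : Type*} {M : Matrix X X ℂ} (hM : M.PosSemidef) (o : X) (ho : (M o o).re ≤ 1)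
    (h1 : ∀ z w, 1 - M z w ≠ 0) : (of fun z w =>
      1 - (1 - M o o) * (1 - M z w) / ((1 - M z o) * (1 - M o w))).PosSemidef := by
  obtain ⟨L, _, _, μ, hμ⟩ := exists_gram hM
  have e : (M o o).re = ‖μ o‖ ^ 2 := by rw [← hμ, ← inner_self_eq_norm_sq (𝕜 := ℂ)]; rfl
  have := (mob μ 0 (μ o) (by simp) (by simpa [← e] using ho)).hadamard
    (dyad_psd fun w => (1 - M o w)⁻¹)
  refine (congrArg PosSemidef ?_).mp this
  ext z w
  have a1 := h1 z o
  have a2 := h1 o w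
  simp only [hadamard_apply, of_apply, dyad, hμ, inner_zero_left, mul_zero, sub_zero, map_inv₀,
    map_sub, map_one, ← Complex.star_def, hM.1.apply]
  field_simp

theorem main {r : ℝ} (hr0 : 0 < r) (hr : r ^ 2 = 1 / 2)
    {F : Matrix (ball (0 : ℂ) r) (ball (0 : ℂ) r) ℂ} (hF : F.PosSemidef)
    (hF1 : ∀ x, (F x x).re < 1)
    (h : (of fun z w : ball (0 : ℂ) r =>
      F z w / (1 - z * conj (w : ℂ)) ^ 2 - 2 * (z * conj (w : ℂ))).PosSemidef) :
    (of fun z w : ball (0 : ℂ) r => (1 - 2 * (z * conj (w : ℂ))) / (1 - F z w)).PosSemidef := by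
  obtain ⟨L, _, _, μ, hμ⟩ := exists_gram hF
  let u : ball (0 : ℂ) r → UniformSpace.Completion L := fun w => μ w
  have hu : ∀ z w, ⟪u z, u w⟫_ℂ = F z w := fun z w => by
    rw [UniformSpace.Completion.inner_coe, hμ]
  have hn : ∀ w, ‖u w‖ < 1 := fun w => by
    have e : (F w w).re = ‖u w‖ ^ 2 := by rw [← hu, ← inner_self_eq_norm_sq (𝕜 := ℂ)]; rfl
    have := hF1 w
    rw [e] at this
    exact (sq_lt_one_iff₀ (norm_nonneg _)).1 this
  obtain ⟨A, B, h1, h2, h3⟩ := core hr0 hr u hn (by simpa only [hu] using h)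
  have hB : ‖B‖ ≤ 1 := (sq_le_one_iff₀ (norm_nonneg _)).1 (by nlinarith [sq_nonneg ‖A‖])
  have nF : ∀ z w, ‖F z w‖ < 1 := fun z w => by
    rw [← hu]
    exact (norm_inner_le_norm _ _).trans_lt
      (mul_lt_one_of_nonneg_of_lt_one_left (norm_nonneg _) (hn z) (hn w).le)
  have nB : ∀ w, 1 - ⟪B, u w⟫_ℂ ≠ 0 := fun w => ne1 ((norm_inner_le_norm _ _).trans_lt
    (mul_lt_one_of_nonneg_of_lt_one_right hB (norm_nonneg _) (hn w)))
  have := ((psd_real psd_one (1 - ‖B‖ ^ 2) (by nlinarith [sq_nonneg ‖A‖])).add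
    ((mob u A B h1 h2).hadamard (psd_geom hF nF))).hadamard
    (dyad_psd fun w => (1 - ⟪B, u w⟫_ℂ)⁻¹)
  refine (congrArg PosSemidef ?_).mp this
  ext z w
  have e : ((1 - ‖B‖ ^ 2 : ℝ) : ℂ) = 1 - ⟪B, B⟫_ℂ := by
    rw [inner_self_eq_norm_sq_to_K]; simp
  have s2 : ((√2 : ℝ) : ℂ) ^ 2 = 2 := by exact_mod_cast Real.sq_sqrt (zero_le_two)
  have a1 := nB w
  have a2 : 1 - ⟪u z, B⟫_ℂ ≠ 0 := fun e => nB z (by simpa using congrArg conj e)
  have a3 := ne1 (nF z w)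
  have a4 : ⟪u z, A⟫_ℂ = (√2 : ℝ) * (z : ℂ) * (1 - ⟪u z, B⟫_ℂ) := by
    simpa using congrArg conj (h3 z)
  simp only [hadamard_apply, Matrix.add_apply, Matrix.smul_apply, of_apply, dyad, hu, e,
    smul_eq_mul, map_inv₀, map_sub, map_one, inner_conj_symm, a4, h3]
  field_simp
  rw [s2]
  ring

end Pool.Agent.H.MP_232e98_an
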